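import Mathlib
import Pool.Agent.N821.CS.Stm

set_option autoImplicit false

/-!
# Project CS, part UNI (helper717 for helper821): identification of the two Hilbert spaces, fixing
finitely many vectors
-/

namespace Pool.Agent.N717.CS

open scoped InnerProductSpace
open TopologicalSpace

universe u

section

variable {E : Type u} [NormedAddCommGroup E] [InnerProductSpace ℂ E]

/-- orthonormal families in separable spaces are countable -/
theorem orth_countable [SeparableSpace E] {κ : Type u} {v : κ → E} (hv : Orthonormal ℂ v) :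
    Countable κ := by
  have hd : ∀ i j, i ≠ j → 1 < ‖v i - v j‖ := by
    intro i j hij
    have h1 : ‖v i - v j‖ ^ 2 = 2 := by
      have h2 := @norm_sub_sq ℂ E _ _ _ (v i) (v j)
      rw [hv.2 hij, hv.1 i, hv.1 j] at h2
      rw [h2]
      norm_num
    by_contra hc
    push Not at hc
    have h3 : ‖v i - v j‖ ^ 2 ≤ 1 := pow_le_one₀ (norm_nonneg _) hc
    linarith
  refine Pairwise.countable_of_isOpen_disjoint (s := fun i => Metric.ball (v i) (1 / 2)) ?_
    (fun i => Metric.isOpen_ball) (fun i => ⟨v i, Metric.mem_ball_self (by norm_num)⟩)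
  intro i j hij
  apply Metric.ball_disjoint_ball
  rw [dist_eq_norm]
  linarith [hd i j hij]

/-- a space with a finite Hilbert basis is finite-dimensional -/
theorem finite_basis {κ : Type u} [Finite κ] (b : HilbertBasis κ ℂ E) :
    FiniteDimensional ℂ E := by
  have h1 : (Submodule.span ℂ (Set.range b)).topologicalClosure = ⊤ := b.dense_span
  have h2 : FiniteDimensional ℂ (Submodule.span ℂ (Set.range b)) :=
    FiniteDimensional.span_of_finite ℂ (Set.finite_range b)
  have h3 : IsClosed ((Submodule.span ℂ (Set.range b) : Submodule ℂ E) : Set E) :=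
    Submodule.closed_of_finiteDimensional _
  have h4 : (Submodule.span ℂ (Set.range b)) = ⊤ := by
    rw [← h1, h3.submodule_topologicalClosure_eq]
  rw [h4] at h2
  exact Module.Finite.equiv (Submodule.topEquiv (R := ℂ) (M := E))

end

/-- an equivalence of countable infinite types with prescribed values -/
theorem exists_equiv {X Y : Type u} [Countable X] [Infinite X] [Countable Y] [Infinite Y] {m : ℕ}
    (f : Fin m → X) (g : Fin m → Y) (hf : Function.Injective f) (hg : Function.Injective g) :
    ∃ φ : X ≃ Y, ∀ a, φ (f a) = g a := by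
  obtain ⟨hX⟩ := nonempty_denumerable X
  obtain ⟨hY⟩ := nonempty_denumerable Y
  obtain ⟨σ, hσ⟩ := Equiv.Perm.exists_extending_pair (fun a => (Denumerable.equiv₂ X Y) (f a)) g
    ((Denumerable.equiv₂ X Y).injective.comp hf) hg
  exact ⟨(Denumerable.equiv₂ X Y).trans σ, fun a => hσ a⟩

theorem t : Pool.Agent.N821.CS.S_UNI.{u} := by
  classical
  intro H K _ _ _ _ _ _ _ _ hH ι N x
  -- the finite-dimensional subspace
  obtain ⟨F, hF⟩ : ∃ F : Submodule ℂ H, F = Submodule.span ℂ (x '' Set.Iio N) := ⟨_, rfl⟩
  have hFf : FiniteDimensional ℂ F := by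
    rw [hF]
    exact FiniteDimensional.span_of_finite ℂ ((Set.finite_Iio N).image x)
  have hx : ∀ i < N, x i ∈ F := by
    intro i hi
    rw [hF]
    exact Submodule.subset_span ⟨i, hi, rfl⟩
  let b := stdOrthonormalBasis ℂ F
  let v : Fin (Module.finrank ℂ F) → H := fun a => (b a : H)
  have hv : Orthonormal ℂ v := b.orthonormal.comp_linearIsometry F.subtypeₗᵢ
  have hv' : Orthonormal ℂ (fun a => ι (v a)) := hv.comp_linearIsometry ι
  obtain ⟨wH, bH, hwH, hbH⟩ := hv.toSubtypeRange.exists_hilbertBasis_extension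
  obtain ⟨wK, bK, hwK, hbK⟩ := hv'.toSubtypeRange.exists_hilbertBasis_extension
  have c1 : Countable wH := orth_countable bH.orthonormal
  have c2 : Countable wK := orth_countable bK.orthonormal
  have i1 : Infinite wH := by
    by_contra hc
    rw [not_infinite_iff_finite] at hc
    exact hH (finite_basis bH)
  have i2 : Infinite wK := by
    by_contra hc
    rw [not_infinite_iff_finite] at hc
    have := finite_basis bK
    exact hH (Module.Finite.of_injective ι.toLinearMap ι.injective)
  obtain ⟨φ, hφ⟩ := exists_equiv (X := wH) (Y := wK) (fun a => ⟨v a, hwH ⟨a, rfl⟩⟩)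
    (fun a => ⟨ι (v a), hwK ⟨a, rfl⟩⟩)
    (fun a a' h => by
      have h1 : v a = v a' := congrArg (fun y : wH => (y : H)) h
      exact hv.linearIndependent.injective h1)
    (fun a a' h => by
      have h1 : ι (v a) = ι (v a') := congrArg (fun y : wK => (y : K)) h
      exact hv'.linearIndependent.injective h1)
  -- the reindexed basis
  have ho : Orthonormal ℂ (fun k : wK => bH (φ.symm k)) := bH.orthonormal.comp _ φ.symm.injective
  have hr : Set.range (fun k : wK => bH (φ.symm k)) = Set.range bH :=
    φ.symm.surjective.range_comp bH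
  obtain ⟨b', hb'⟩ : ∃ b' : HilbertBasis wK ℂ H, ⇑b' = fun k : wK => bH (φ.symm k) :=
    ⟨HilbertBasis.mk ho (by rw [hr, bH.dense_span]), HilbertBasis.coe_mk _ _⟩
  let W : K ≃ₗᵢ[ℂ] H := bK.repr.trans b'.repr.symm
  have hW : ∀ k, W (bK k) = b' k := by
    intro k
    show b'.repr.symm (bK.repr (bK k)) = b' k
    rw [bK.repr_self, b'.repr_symm_single]
  have hWv : ∀ a, W (ι (v a)) = v a := by
    intro a
    have h1 : ι (v a) = bK (φ ⟨v a, hwH ⟨a, rfl⟩⟩) := by
      rw [hφ a, hbK]
    rw [h1, hW, hb']
    show bH (φ.symm (φ _)) = v a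
    rw [Equiv.symm_apply_apply, hbH]
  refine ⟨W, fun i hi => ?_⟩
  have h1 : x i = ∑ a, b.repr ⟨x i, hx i hi⟩ a • v a := by
    have h2 := congrArg (Subtype.val (p := fun y => y ∈ F)) (b.sum_repr ⟨x i, hx i hi⟩)
    have h3 : ((∑ a, b.repr ⟨x i, hx i hi⟩ a • b a : F) : H) = x i := h2
    refine h3.symm.trans ?_
    rw [Submodule.coe_sum]
    rfl
  rw [h1, map_sum, map_sum]
  apply Finset.sum_congr rfl
  intro a _
  rw [map_smul, map_smul, hWv]

end Pool.Agent.N717.CS
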